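import Pool.Agent.R683.HT6
import Pool.Agent.R683.HT7
import Pool.Agent.R683.HT8
import Pool.Agent.R683.HT9
import Pool.Agent.R683.HT10

/-!
# Non-smoothness of the zero-angle point on Hankel tori

If `∑ s_{2j-1} s_{2j} / (s_{2j-1} - s_{2j}) = ∞` then the point `u₀` of the torus `𝒯((s_r))` with
all angles equal to `0` is not `C¹` on the circle.
-/

set_option autoImplicit false

namespace Pool.Agent.Results.MP_ee8931_an.ZeroAngle

open Filter Topology Finset Matrix
open scoped ComplexConjugate Real ENNReal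

/-- `h` is the sequence of Fourier coefficients `ĥ(0), ĥ(1), …` of an element of `L²₊(𝕋)`. -/
def L2 (h : ℕ → ℂ) : Prop := Summable fun n => ‖h n‖ ^ 2

/-- `H_u h = Π(u h̄)` on Fourier coefficients: `(H_u h)^(n) = ∑_{p ≥ 0} û(n+p) conj ĥ(p)`,
where `c n = û(n)`. -/
noncomputable def hankelH (c h : ℕ → ℂ) : ℕ → ℂ := fun n => ∑' p, c (n + p) * conj (h p)

/-- `(S h)(x) = e^{ix} h(x)` on Fourier coefficients. -/
def shift (h : ℕ → ℂ) : ℕ → ℂ := fun n => if n = 0 then 0 else h (n - 1)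

/-- `K_u = H_u S`. -/
noncomputable def hankelK (c h : ℕ → ℂ) : ℕ → ℂ := hankelH c (shift h)

/-- `h` is an eigenvector of `T²` in `L²₊(𝕋)` with eigenvalue `l`. -/
def IsEigSq (T : (ℕ → ℂ) → (ℕ → ℂ)) (l : ℝ) (h : ℕ → ℂ) : Prop :=
  L2 h ∧ h ≠ 0 ∧ T (T h) = fun n => (l : ℂ) * h n

/-- The square roots of the nonzero eigenvalues of `T²`, listed with multiplicities in
nonincreasing order, are the strictly decreasing sequence `m 0 > m 1 > ⋯`: the positive `x` such
that `x²` is an eigenvalue of `T²` are the `m j`, and the eigenspaces are one-dimensional. -/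
def SqSpec (T : (ℕ → ℂ) → (ℕ → ℂ)) (m : ℕ → ℝ) : Prop :=
  (∀ x : ℝ, 0 < x → ((∃ h, IsEigSq T (x ^ 2) h) ↔ ∃ j, x = m j)) ∧
  ∀ j h h', IsEigSq T (m j ^ 2) h → IsEigSq T (m j ^ 2) h' → ∃ w : ℂ, h' = fun n => w * h n

/-- The torus `𝒯((s_r))`. The sequence is indexed from `0` here, `s r` is `s_{r+1}` of the
problem: `ρ_{j+1} = s (2j)` and `σ_{k+1} = s (2k+1)`. The element `u` of `H^{1/2}_+` is given by
its Fourier coefficients `c n = û(n)`, `n ≥ 0`. -/
def Torus (s : ℕ → ℝ) (c : ℕ → ℂ) : Prop :=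
  (Summable fun n : ℕ => ((n : ℝ) + 1) * ‖c n‖ ^ 2) ∧
  SqSpec (hankelH c) (fun j => s (2 * j)) ∧ SqSpec (hankelK c) (fun k => s (2 * k + 1))

/-- The matrix `𝒞_N(z)` with angles `ψ`. -/
noncomputable def Cmat (s ψ : ℕ → ℝ) (N : ℕ) (z : ℂ) : Matrix (Fin N) (Fin N) ℂ :=
  Matrix.of fun j k =>
    ((s (2 * j) : ℂ) * Complex.exp ((ψ (2 * j) : ℂ) * Complex.I) -
        z * (s (2 * k + 1) : ℂ) * Complex.exp ((ψ (2 * k + 1) : ℂ) * Complex.I)) /
      ((s (2 * j) : ℂ) ^ 2 - (s (2 * k + 1) : ℂ) ^ 2)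

/-- `u` is the point of `𝒯((s_r))` with angles `ψ`:
`u(z) = lim_N ⟨𝒞_N(z)⁻¹ 1_N, 1_N⟩` for `|z| < 1`. -/
def IsPoint (s ψ : ℕ → ℝ) (c : ℕ → ℂ) : Prop :=
  Torus s c ∧ ∀ z : ℂ, ‖z‖ < 1 →
    Tendsto (fun N => (fun _ => (1:ℂ)) ⬝ᵥ ((Cmat s ψ N z)⁻¹ *ᵥ (fun _ => (1:ℂ)))) atTop
      (𝓝 (∑' n : ℕ, c n * z ^ n))

/-- The function on `𝕋` with Fourier coefficients `c n` (`n ≥ 0`), and `0` for `n < 0`, is `C¹`. -/
def IsC1 (c : ℕ → ℂ) : Prop :=
  ∃ U : ℝ → ℂ, ContDiff ℝ 1 U ∧ Function.Periodic U (2 * π) ∧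
    ∀ n : ℤ, (1 / (2 * π) : ℂ) *
      ∫ θ in (0:ℝ)..(2 * π), U θ * Complex.exp (-((n : ℂ) * θ * Complex.I)) =
        if 0 ≤ n then c n.toNat else 0

/-- `D((s_r)) = ∑_{j ≥ 1} s_{2j-1} s_{2j} / (s_{2j-1} - s_{2j})` in `[0, ∞]`. -/
noncomputable def D (s : ℕ → ℝ) : ℝ≥0∞ :=
  ∑' j : ℕ, ENNReal.ofReal (s (2 * j) * s (2 * j + 1) / (s (2 * j) - s (2 * j + 1)))

/-! ### the operator `K_u` for real symbols -/

open R683HT

theorem hankelK_eq (c : ℕ → ℂ) (a : ℕ → ℝ) (hca : ∀ n, c n = (a n : ℂ)) (hHS : HS a)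
    (x y : ℕ → ℝ) (hx : Sq x) (hy : Sq y) :
    hankelK c (fun n => (⟨x n, y n⟩ : ℂ)) = fun n => (⟨Kop a x n, -Kop a y n⟩ : ℂ) := by
  ext n
  unfold hankelK hankelH
  have h1 : HasSum (fun p => (a (n + p + 1) : ℂ) * conj (⟨x p, y p⟩ : ℂ))
      (⟨Kop a x n, -Kop a y n⟩ : ℂ) := by
    rw [Complex.hasSum_iff]
    constructor
    · have h2 := (Kop_summable hHS hx n).hasSum
      have h3 : (fun p => ((a (n + p + 1) : ℂ) * conj (⟨x p, y p⟩ : ℂ)).re) =
          fun p => a (n + p + 1) * x p := by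
        funext p
        simp [Complex.mul_re]
      rw [h3]
      exact h2
    · have h2 := (Kop_summable hHS hy n).hasSum.neg
      have h3 : (fun p => ((a (n + p + 1) : ℂ) * conj (⟨x p, y p⟩ : ℂ)).im) =
          fun p => -(a (n + p + 1) * y p) := by
        funext p
        simp [Complex.mul_im]
      rw [h3]
      exact h2
  have h2 : HasSum (fun p => c (n + p) * conj (shift (fun n => (⟨x n, y n⟩ : ℂ)) p))
      (⟨Kop a x n, -Kop a y n⟩ : ℂ) := by
    rw [← hasSum_nat_add_iff' 1]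
    simp only [Finset.range_one, Finset.sum_singleton]
    have h3 : c (n + 0) * conj (shift (fun n => (⟨x n, y n⟩ : ℂ)) 0) = 0 := by simp [shift]
    rw [h3, sub_zero]
    have h4 : (fun p => c (n + (p + 1)) * conj (shift (fun n => (⟨x n, y n⟩ : ℂ)) (p + 1))) =
        fun p => (a (n + p + 1) : ℂ) * conj (⟨x p, y p⟩ : ℂ) := by
      funext p
      rw [hca]
      rfl
    rw [h4]
    exact h1
  exact h2.tsum_eq

theorem real_eig (c : ℕ → ℂ) (a : ℕ → ℝ) (hca : ∀ n, c n = (a n : ℂ)) (hHS : HS a)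
    (σ : ℝ) (h : ℕ → ℂ) (hh : IsEigSq (hankelK c) (σ ^ 2) h) :
    ∃ x : ℕ → ℝ, Sq x ∧ x ≠ 0 ∧ Kop a (Kop a x) = fun n => σ ^ 2 * x n := by
  obtain ⟨h2, h0, hT⟩ := hh
  set x : ℕ → ℝ := fun n => (h n).re with hx
  set y : ℕ → ℝ := fun n => (h n).im with hy
  have hxs : Sq x := Summable.of_nonneg_of_le (fun _ => sq_nonneg _) (fun n => by
    have := Complex.sq_norm_sub_sq_im (h n)
    simp only [hx]
    nlinarith [sq_nonneg ((h n).im)]) h2
  have hys : Sq y := Summable.of_nonneg_of_le (fun _ => sq_nonneg _) (fun n => by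
    have := Complex.sq_norm_sub_sq_re (h n)
    simp only [hy]
    nlinarith [sq_nonneg ((h n).re)]) h2
  have hh' : h = fun n => (⟨x n, y n⟩ : ℂ) := by
    ext n
    exact (Complex.eta _).symm
  have hKy : Sq (fun n => -Kop a y n) := by
    have := Sq_smul (-1) (Kop_sq hHS hys)
    refine this.congr fun n => ?_
    ring
  rw [hh', hankelK_eq c a hca hHS x y hxs hys,
    hankelK_eq c a hca hHS _ _ (Kop_sq hHS hxs) hKy] at hT
  have hneg : Kop a (fun n => -Kop a y n) = fun n => -Kop a (Kop a y) n := by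
    have h3 := Kop_lin hHS (Kop_sq hHS hys) (Kop_sq hHS hys) (-1) 0
    simp only [zero_mul, add_zero, neg_mul, one_mul] at h3
    exact h3
  have hre : Kop a (Kop a x) = fun n => σ ^ 2 * x n := by
    ext n
    have := congrArg Complex.re (congrFun hT n)
    simp only [Complex.mul_re] at this
    rw [this]
    have h4 : ((σ ^ 2 : ℝ) : ℂ).im = 0 := Complex.ofReal_im _
    rw [h4, Complex.ofReal_re]
    ring
  have him : Kop a (Kop a y) = fun n => σ ^ 2 * y n := by
    ext n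
    have := congrArg Complex.im (congrFun hT n)
    simp only [Complex.mul_im] at this
    rw [hneg] at this
    have h4 : ((σ ^ 2 : ℝ) : ℂ).im = 0 := Complex.ofReal_im _
    rw [h4, Complex.ofReal_re] at this
    linarith
  by_cases hx0 : x = 0
  · refine ⟨y, hys, ?_, him⟩
    intro hy0
    apply h0
    rw [hh']
    ext n
    rw [hx0, hy0]
    rfl
  · exact ⟨x, hxs, hx0, hre⟩

/-- **Main theorem.** Let `s` be a strictly decreasing positive square-summable sequence and `u₀`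
the point of the torus with all angles `0`. Then `û₀(n) ≥ 0` for all `n`,
`D((s_r)) ≤ ∑ n û₀(n)`, and if `D((s_r)) = ∞` then `u₀` is not `C¹`. -/
theorem result (s : ℕ → ℝ) (hpos : ∀ r, 0 < s r) (hanti : StrictAnti s)
    (_hsq : Summable fun r => s r ^ 2) (c : ℕ → ℂ) (hc : IsPoint s (fun _ => 0) c) :
    (D s = ⊤ → ¬ IsC1 c) ∧ (∀ n, 0 ≤ (c n).re ∧ (c n).im = 0) ∧
      D s ≤ ∑' n : ℕ, ENNReal.ofReal ((n : ℝ) * (c n).re) := by
  obtain ⟨⟨hH, -, hKspec⟩, hlim⟩ := hc
  have hpack : ∀ N : ℕ, _ := fun N => pack (fun j : Fin N => s (2 * j))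
    (fun k : Fin N => s (2 * k + 1)) (fun k => hpos _)
    (fun j k hjk => hanti (by have : (j:ℕ) ≤ k := hjk; omega))
    (fun j k hjk => hanti (by have : (k:ℕ) < j := hjk; omega))
  choose t q Φ F Fi F' Fi' ht hΦ' hΦ hP hF hF' hA hB h1 h2 using hpack
  -- the rational symbols
  have hU : ∀ N (z : ℂ), ‖z‖ < 1 →
      (fun _ => (1:ℂ)) ⬝ᵥ ((Cmat s (fun _ => 0) N z)⁻¹ *ᵥ (fun _ => (1:ℂ))) =
        ∑ i, (q N i : ℂ) ^ 2 * (1 - (t N i : ℂ) * z)⁻¹ := by
    intro N z hz
    rw [← res_formula (t N) (q N) (F N) (Fi N) (F' N) (Fi' N) _ _ (ht N) (hF N) (hF' N)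
      (hA N) (hB N) (h1 N) (h2 N) z hz]
    congr 3
    ext j k
    simp only [Cmat, Matrix.of_apply, Matrix.sub_apply, Matrix.smul_apply, Matrix.map_apply,
      smul_eq_mul, Complex.ofReal_zero, zero_mul, Complex.exp_zero, mul_one,
      Complex.coe_algebraMap]
    push_cast
    ring
  -- coefficients
  set A : ℕ → ℕ → ℝ := fun N m => ∑ i, q N i ^ 2 * t N i ^ m with hAdef
  have hA0 : ∀ N m, 0 ≤ A N m := fun N m =>
    Finset.sum_nonneg fun i _ => mul_nonneg (sq_nonneg _) (pow_nonneg (ht N i).1.le _)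
  have hAle : ∀ N m, A N m ≤ A N 0 := fun N m => by
    apply Finset.sum_le_sum
    intro i _
    apply mul_le_mul_of_nonneg_left _ (sq_nonneg _)
    rw [pow_zero]
    exact pow_le_one₀ (ht N i).1.le (ht N i).2
  have hser : ∀ N (x : ℝ), 0 < x → x < 1 → ∑' m : ℕ, (A N m : ℂ) * (x:ℂ) ^ m =
      ∑ i, (q N i : ℂ) ^ 2 * (1 - (t N i : ℂ) * x)⁻¹ := by
    intro N x hx0 hx1
    have e1 : ∀ i : Fin N, HasSum (fun m : ℕ => (q N i : ℂ) ^ 2 * ((t N i : ℂ) * x) ^ m)
        ((q N i : ℂ) ^ 2 * (1 - (t N i : ℂ) * x)⁻¹) := by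
      intro i
      apply HasSum.mul_left
      apply hasSum_geometric_of_norm_lt_one
      rw [norm_mul, Complex.norm_real, Complex.norm_real, Real.norm_eq_abs, Real.norm_eq_abs,
        abs_of_pos (ht N i).1, abs_of_pos hx0]
      nlinarith [(ht N i).1, (ht N i).2]
    have e2 := hasSum_sum (s := (univ : Finset (Fin N))) (fun i _ => e1 i)
    rw [← e2.tsum_eq]
    apply tsum_congr
    intro m
    simp only [hAdef]
    push_cast
    rw [Finset.sum_mul]
    apply Finset.sum_congr rfl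
    intro i _
    rw [mul_pow]; ring
  have hlim0 : Tendsto (fun N => (A N 0 : ℂ)) atTop (𝓝 (c 0)) := by
    have e1 := hlim 0 (by simp)
    have e2 : ∑' n : ℕ, c n * (0:ℂ) ^ n = c 0 := by
      rw [tsum_eq_single 0]
      · simp
      · intro n hn; simp [hn]
    rw [e2] at e1
    refine e1.congr fun N => ?_
    rw [hU N 0 (by simp)]
    simp [hAdef]
  obtain ⟨C0, hC0⟩ : ∃ C : ℝ, ∀ N, A N 0 ≤ C := by
    have e1 := (Complex.continuous_re.tendsto _).comp hlim0
    obtain ⟨C, hC⟩ := e1.bddAbove_range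
    exact ⟨C, fun N => by simpa using hC (Set.mem_range_self N)⟩
  -- the coefficients of u₀ are bounded
  obtain ⟨C1, hC1⟩ : ∃ C : ℝ, ∀ m, ‖c m‖ ≤ C := by
    have e1 : Summable fun n => ‖c n‖ ^ 2 := by
      apply Summable.of_nonneg_of_le (fun _ => sq_nonneg _) _ hH
      intro n
      nlinarith [sq_nonneg ‖c n‖, mul_nonneg (Nat.cast_nonneg (α := ℝ) n) (sq_nonneg ‖c n‖)]
    refine ⟨∑' n, ‖c n‖ ^ 2 + 1, fun m => ?_⟩
    have e2 := e1.le_tsum m (fun _ _ => sq_nonneg _)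
    nlinarith [norm_nonneg (c m), sq_nonneg (‖c m‖ - 1)]
  set C := max C0 C1 with hC
  have hconvC : ∀ m, Tendsto (fun N => (A N m : ℂ)) atTop (𝓝 (c m)) := by
    intro m
    apply coef_conv_aux m (fun N m => (A N m : ℂ)) c C
    · intro N m
      rw [Complex.norm_real, Real.norm_eq_abs, abs_of_nonneg (hA0 N m)]
      exact le_trans (hAle N m) (le_trans (hC0 N) (le_max_left _ _))
    · intro m
      exact le_trans (hC1 m) (le_max_right _ _)
    · intro x hx0 hx1
      have hx : ‖(x:ℂ)‖ < 1 := by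
        rw [Complex.norm_real, Real.norm_eq_abs, abs_of_pos hx0]; exact hx1
      refine (hlim x hx).congr fun N => ?_
      rw [hU N x hx, hser N x hx0 hx1]
  set a : ℕ → ℝ := fun n => (c n).re with ha
  have hconv : ∀ m, Tendsto (fun N => A N m) atTop (𝓝 (a m)) := by
    intro m
    have := (Complex.continuous_re.tendsto _).comp (hconvC m)
    simpa using! this
  have him : ∀ m, (c m).im = 0 := by
    intro m
    have e1 := (Complex.continuous_im.tendsto _).comp (hconvC m)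
    have e2 : (Complex.im ∘ fun N => (A N m : ℂ)) = fun _ => 0 := by
      funext N; simp
    rw [e2] at e1
    exact (tendsto_nhds_unique e1 tendsto_const_nhds)
  have ha0 : ∀ m, 0 ≤ a m := fun m => ge_of_tendsto' (hconv m) fun N => hA0 N m
  have hca : ∀ n, c n = (a n : ℂ) := fun n => Complex.ext (by simp [ha]) (by simp [him])
  have hHS : HS a := by
    apply hs_of
    refine hH.congr fun n => ?_
    rw [hca n, Complex.norm_real, Real.norm_eq_abs, sq_abs]
  have hpsd : ∀ (x : ℕ → ℝ) (L : ℕ),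
      0 ≤ ∑ z ∈ range L ×ˢ range L, a (z.1 + z.2 + 1) * x z.1 * x z.2 := by
    intro x L
    have e1 : Tendsto (fun N => ∑ z ∈ range L ×ˢ range L, A N (z.1 + z.2 + 1) * x z.1 * x z.2)
        atTop (𝓝 (∑ z ∈ range L ×ˢ range L, a (z.1 + z.2 + 1) * x z.1 * x z.2)) := by
      apply tendsto_finsetSum
      intro z _
      exact ((hconv _).mul_const _).mul_const _
    apply ge_of_tendsto' e1
    intro N
    have e2 : ∑ z ∈ range L ×ˢ range L, A N (z.1 + z.2 + 1) * x z.1 * x z.2 =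
        ∑ i, q N i ^ 2 * t N i * (∑ n ∈ range L, t N i ^ n * x n) ^ 2 := by
      simp only [hAdef]
      simp_rw [Finset.sum_mul]
      rw [Finset.sum_comm]
      apply Finset.sum_congr rfl
      intro i _
      rw [sq (∑ n ∈ range L, t N i ^ n * x n), Finset.sum_mul_sum, Finset.mul_sum,
        Finset.sum_product]
      apply Finset.sum_congr rfl
      intro n _
      rw [Finset.mul_sum]
      apply Finset.sum_congr rfl
      intro p _
      rw [pow_succ, pow_add]
      ring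
    rw [e2]
    exact Finset.sum_nonneg fun i _ =>
      mul_nonneg (mul_nonneg (sq_nonneg _) (ht N i).1.le) (sq_nonneg _)
  -- eigenvectors
  have heig : ∀ k : ℕ, ∃ g : ℕ → ℝ, Sq g ∧ ∑' n, g n * g n = 1 ∧
      Kop a g = fun n => s (2 * k + 1) * g n := by
    intro k
    obtain ⟨h, hh⟩ := (hKspec.1 (s (2 * k + 1)) (hpos _)).mpr ⟨k, rfl⟩
    obtain ⟨x, hx, hx0, hxK⟩ := real_eig c a hca hHS _ h hh
    exact eig_of_sq hHS hpsd _ (hpos _) x hx hx0 hxK
  choose g hg hg1 hgK using heig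
  have hσinj : Function.Injective (fun k : ℕ => s (2 * k + 1)) := by
    intro i j hij
    have := hanti.injective hij
    omega
  obtain ⟨hortho, hKmat⟩ := ortho hHS (fun k => s (2 * k + 1)) hσinj g hg hg1 hgK
  have hmain : (Summable fun n : ℕ => (n:ℝ) * a n) → ∀ M : ℕ,
      ∑ k ∈ range M, s (2 * k + 1) * s (2 * k) / (s (2 * k) - s (2 * k + 1)) ≤
        ∑' n : ℕ, (n:ℝ) * a n := by
    intro hsum M
    exact keyLim (fun k => s (2 * k)) (fun k => hpos _)
      (fun i j hij => hanti.antitone (by omega)) (fun k => s (2 * k + 1))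
      (fun k => hanti (by omega)) (fun i j hij => hanti (by omega)) (fun k => hpos _)
      t q Φ ht hΦ hP a hconv hsum g hortho hKmat M
  have hterm : ∀ k : ℕ, 0 ≤ s (2 * k) * s (2 * k + 1) / (s (2 * k) - s (2 * k + 1)) := fun k =>
    div_nonneg (mul_pos (hpos _) (hpos _)).le (sub_nonneg.mpr (hanti (by omega)).le)
  have hD : (Summable fun n : ℕ => (n:ℝ) * a n) →
      D s ≤ ENNReal.ofReal (∑' n : ℕ, (n:ℝ) * a n) := by
    intro hsum
    unfold D
    apply ENNReal.tsum_le_of_sum_range_le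
    intro M
    rw [← ENNReal.ofReal_sum_of_nonneg (fun k _ => hterm k)]
    apply ENNReal.ofReal_le_ofReal
    refine le_trans (le_of_eq ?_) (hmain hsum M)
    apply Finset.sum_congr rfl
    intro k _
    rw [mul_comm (s (2 * k))]
  refine ⟨?_, fun n => ⟨ha0 n, him n⟩, ?_⟩
  · rintro hDtop ⟨U, hU1, hUper, hUF⟩
    have hsum : Summable fun n : ℕ => (n:ℝ) * a n := by
      apply c1_summable U hU1 hUper a ha0
      intro n
      have e1 := hUF n
      have e2 : ∫ θ in (0:ℝ)..(2 * π), U θ * ex n θ =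
          2 * π * ((1 / (2 * π) : ℂ) *
            ∫ θ in (0:ℝ)..(2 * π), U θ * Complex.exp (-((n : ℂ) * θ * Complex.I))) := by
        have e3 : (2 * (π:ℂ)) ≠ 0 := by
          exact_mod_cast (mul_pos two_pos Real.pi_pos).ne'
        rw [← mul_assoc, mul_one_div_cancel e3, one_mul]
        rfl
      rw [e2, e1]
      congr 1
      split_ifs
      · exact hca _
      · rfl
    have := hD hsum
    rw [hDtop, top_le_iff] at this
    exact ENNReal.ofReal_ne_top this
  · by_cases hsum : Summable fun n : ℕ => (n:ℝ) * a n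
    · have e1 := ENNReal.ofReal_tsum_of_nonneg
        (fun n => mul_nonneg (Nat.cast_nonneg n) (ha0 n)) hsum
      rw [← e1]
      exact hD hsum
    · have e1 : ∑' n : ℕ, ENNReal.ofReal ((n : ℝ) * (c n).re) = ⊤ := by
        by_contra hcon
        apply hsum
        have e2 := ENNReal.summable_toReal hcon
        refine e2.congr fun n => ?_
        rw [ENNReal.toReal_ofReal (mul_nonneg (Nat.cast_nonneg n) (ha0 n))]
      rw [e1]
      exact le_top

end Pool.Agent.Results.MP_ee8931_an.ZeroAngle
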